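import Pool.Agent.Work.MP_fd21e9_pr.Canon
import Pool.Agent.Work.MP_fd21e9_pr.Free
import Pool.Agent.Work.MP_fd21e9_pr.TheoremA

/-!
# The localization transition of the copolymer model is of infinite order

For every `α > 0`, every inter-arrival law `K n ~ c n ^ (-(1 + α))`, every law of the charges
(centred, unit variance, finite exponential moments) and every `lam > 0`, the free energy
`f (hc - δ)` is bounded by `C * δ ^ Γ` for every exponent `Γ`.
-/

open MeasureTheory ProbabilityTheory Filter Topology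
open scoped ENNReal

namespace Pool.Agent.Results.MP_fd21e9_pr.InfiniteOrder

open Copoly

theorem kerf_meas {K : ℕ → ℝ} {lam h : ℝ} (m : ℕ) : Measurable (kerf K lam h m) := by
  unfold kerf En
  have : Measurable fun x : ℕ → ℝ => ∑ j ∈ Finset.range m, (x j + h) :=
    Finset.measurable_sum _ (fun j _ => (measurable_pi_apply j).add_const _)
  fun_prop

theorem Zf_meas {K : ℕ → ℝ} (hK : ∀ n, 0 ≤ K n) {lam h : ℝ} (N : ℕ) :
    Measurable (Zf (ker K lam h) (kerf K lam h) N) := by
  unfold Zf
  refine Finset.measurable_sum _ (fun s _ => ?_)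
  exact (Z_meas (isKernel_ker hK lam h).meas s).mul ((kerf_meas (N - s)).comp (measurable_sh s))

theorem result {α : ℝ} (hα : 0 < α) {K : ℕ → ℝ} (hK : InterArrival α K)
    {Ω₁ : Type*} [MeasurableSpace Ω₁] {P₁ : Measure Ω₁} {Y : ℕ → Ω₁ → ℕ × Bool}
    (hY : SignedRenewal K P₁ Y)
    {Ω : Type*} [MeasurableSpace Ω] {P : Measure Ω} {ω : ℕ → Ω → ℝ} (hω : Charges P ω)
    {lam : ℝ} (hlam : 0 < lam) :
    ∃ f : ℝ → ℝ,
      (∀ (h : ℝ) (N : ℕ), Integrable (fun a => Real.log (ZN P₁ Y lam h (fun n => ω n a) N)) P) ∧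
      (∀ h : ℝ, Tendsto (fun N : ℕ =>
        (∫ a, Real.log (ZN P₁ Y lam h (fun n => ω n a) N) ∂P) / N) atTop (𝓝 (f h))) ∧
      (∀ h : ℝ, 0 ≤ f h) ∧
      ∃ hc : ℝ, (∀ h : ℝ, 0 < f h ↔ h < hc) ∧
        ∀ Γ : ℝ, 0 < Γ → ∃ C : ℝ, ∀ δ : ℝ, 0 < δ → δ < 1 → f (hc - δ) ≤ C * δ ^ Γ := by
  have hν : ChargeLaw (P.map (ω 1)) := hω.law
  set ν := P.map (ω 1) with hνdef
  have hνp : IsProbabilityMeasure ν := hν.prob
  choose f hf1 hf2 hf3 using fun h => free_energy hν hα hK hlam h
  -- identification of the two forms of the mean log partition function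
  have hA : ∀ h N, ∫ a, Real.log (ZN P₁ Y lam h (fun n => ω n a) N) ∂P = AA ν K lam h N := by
    intro h N
    have : ∀ a, ZN P₁ Y lam h (fun n => ω n a) N =
        Zf (ker K lam h) (kerf K lam h) N (fun n => ω (n + 1) a) := fun a =>
      ZN_eq hK hY lam h _ N
    simp only [this]
    exact integral_charges hω
      (F := fun x => Real.log (Zf (ker K lam h) (kerf K lam h) N x))
      (Real.measurable_log.comp (Zf_meas hK.nonneg N))
  have hnonneg : ∀ h, 0 ≤ f h := fun h => free_nonneg hν hα hK hlam (hf1 h)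
  have hmono : ∀ {h h' : ℝ}, h' ≤ h → f h ≤ f h' ∧ f h' ≤ f h + 2 * lam * (h - h') :=
    fun hh => free_mono hν hK hlam hh (hf1 _) (hf1 _)
  have hann : ∀ h, qq ν lam h 1 ≤ 1 → f h ≤ 0 := fun h hq => free_ann hν hK hlam (hf1 h) hq
  refine ⟨f, ?_, ?_, hnonneg, ?_⟩
  · intro h N
    have hprob := hω.prob
    have hZN : ∀ a, ZN P₁ Y lam h (fun n => ω n a) N =
        Zf (ker K lam h) (kerf K lam h) N (fun n => ω (n + 1) a) := fun a =>
      ZN_eq hK hY lam h _ N
    simp only [hZN]
    have hint := logZf_integrable hν hα hK (lam := lam) h N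
    rw [hνdef, ← hω.joint] at hint
    exact (integrable_map_measure
      (Real.measurable_log.comp (Zf_meas hK.nonneg N)).aestronglyMeasurable
      (measurable_pi_iff.2 hω.meas).aemeasurable).1 hint
  · intro h
    simpa only [hA] using hf1 h
  -- the critical point
  set S : Set ℝ := {h | 0 < f h} with hS
  have hSne : (-1 : ℝ) ∈ S := by
    have := free_lower hν hα hK hlam (hf1 (-1))
    have : 0 < f (-1) := by linarith
    exact this
  have hSb : BddAbove S := by
    refine ⟨Real.log (qq ν lam 0 1) / (2 * lam), ?_⟩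
    intro h hh
    by_contra hc
    push Not at hc
    have hq : qq ν lam h 1 ≤ 1 := by
      have h1 := qq_shift hν lam 0 1 (-h)
      have h2 : qq ν lam h 1 = Real.exp (2 * lam * 1 * -h) * qq ν lam 0 1 := by
        rw [← h1]; congr 1; ring
      rw [h2]
      have hpos := qq_pos hν lam 0 1
      rw [← Real.exp_log hpos, ← Real.exp_add]
      apply Real.exp_le_one_iff.2
      rw [div_lt_iff₀ (by linarith)] at hc
      linarith
    have := hann h hq
    have hh' : 0 < f h := hh
    linarith
  set hc := sSup S with hhc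
  have hiff : ∀ h : ℝ, 0 < f h ↔ h < hc := by
    intro h
    constructor
    · intro hpos
      have hmem : h + f h / (4 * lam) ∈ S := by
        have hle : h ≤ h + f h / (4 * lam) := by
          have : 0 ≤ f h / (4 * lam) := by positivity
          linarith
        have h2 := (hmono hle).2
        have h3 : 2 * lam * (h + f h / (4 * lam) - h) = f h / 2 := by field_simp; ring
        have : 0 < f (h + f h / (4 * lam)) := by linarith
        exact this
      have h4 := le_csSup hSb hmem
      have : 0 < f h / (4 * lam) := by positivity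
      linarith
    · intro hlt
      obtain ⟨h', hh', hlt'⟩ := exists_lt_of_lt_csSup ⟨_, hSne⟩ hlt
      have := (hmono hlt'.le).1
      have h5 : 0 < f h' := hh'
      linarith
  have hfc : f hc = 0 := by
    have h1 := hnonneg hc
    by_contra hne
    have : 0 < f hc := lt_of_le_of_ne h1 (Ne.symm hne)
    exact lt_irrefl _ ((hiff hc).1 this)
  have hqc : 1 ≤ qq ν lam hc 1 := by
    by_contra hlt
    push Not at hlt
    have hpos := qq_pos hν lam hc 1
    set ε := -Real.log (qq ν lam hc 1) / (2 * lam) with hε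
    have hεpos : 0 < ε := by
      have : Real.log (qq ν lam hc 1) < 0 := Real.log_neg hpos hlt
      rw [hε]; apply div_pos <;> linarith
    have hq : qq ν lam (hc - ε) 1 ≤ 1 := by
      rw [qq_shift hν]
      conv_lhs => rw [← Real.exp_log hpos]
      rw [← Real.exp_add]
      apply Real.exp_le_one_iff.2
      have : 2 * lam * 1 * ε = -Real.log (qq ν lam hc 1) := by rw [hε]; field_simp
      rw [this]; linarith
    have h1 := hann _ hq
    have h2 := (hiff (hc - ε)).2 (by linarith)
    linarith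
  refine ⟨hc, hiff, ?_⟩
  intro Γ hΓ
  obtain ⟨n₀, hn₀, hlowK⟩ := K_lower hα hK
  have hKpos : ∀ n, n₀ ≤ n → 0 < K n := by
    intro n hn
    have h1 := hlowK n hn
    have hn' : (0 : ℝ) < n := by
      have : 1 ≤ n := le_trans hn₀ hn
      exact_mod_cast this
    have : 0 < (n : ℝ) ^ (-(2 + α)) := Real.rpow_pos_of_pos hn' _
    linarith
  obtain ⟨C, δ₃, hC, hδ₃, hδ₃1, hmain⟩ := infinite_order (ν := ν)
    (κ := fun δ => ker K lam (hc - δ)) (u := fun δ => uker lam (hc - δ))
    (r := fun δ => rker K lam hc δ) (g := gfun lam (hc - 1)) (a := fun _ => 1)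
    (b := 2 + α) (C₁ := 0) (δ₁ := 1) (n₀ := n₀)
    one_pos le_rfl (by linarith) hn₀
    (fun δ _ _ => isKernel_ker hK.nonneg lam (hc - δ))
    (fun δ _ _ => isKernel_uker lam (hc - δ))
    (fun δ hδ _ => isKernel_rker hK.nonneg hlam hδ.le)
    (fun δ _ _ n x => one_le_uker n x)
    (measurable_gfun lam (hc - 1)) (fun e => one_le_gfun e) (integrable_gfun hν lam (hc - 1))
    (fun δ _ hδ n x => le_trans (Zker_crude hK n x)
      (Finset.prod_le_prod (fun i _ => le_trans zero_le_one (one_le_gfun _))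
        (fun i _ => gfun_anti hlam (by linarith) _)))
    (fun δ _ hδ n x => le_trans (uker_crude n x)
      (Finset.prod_le_prod (fun i _ => le_trans zero_le_one (one_le_gfun _))
        (fun i _ => gfun_anti hlam (by linarith) _)))
    measurable_const (fun _ => one_pos) (fun _ => le_rfl)
    (by simp)
    (fun n hn x => by
      have h1 := hlowK n hn
      have h2 := ker_lower (lam := lam) (h := hc - 0) hK.nonneg n x
      linarith)
    (fun n hn => by
      simpa using logZ_integrable hν hK (hc - 0) (le_trans hn₀ hn) (hKpos n hn))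
    (fun n hn => by
      have h1 := hf2 (hc - 0) n (le_trans hn₀ hn) (hKpos n hn)
      rw [sub_zero, hfc] at h1
      have hn' : (0 : ℝ) < n := by
        have : 1 ≤ n := le_trans hn₀ hn
        exact_mod_cast this
      rw [div_le_iff₀ hn'] at h1
      simpa using h1)
    (fun θ' hθ' => by
      simpa using heavy_ker hν hα hK hlam hqc hθ')
    (fun δ _ _ n x _ => by
      have := ker_pert (K := K) (lam := lam) (h := hc) δ n x
      simp only [sub_zero, zero_mul, add_zero, one_mul]
      exact this.le)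
    (fun θ θ₁ h0 h1 h2 hg => rker_sum hν hK hlam h0 (by linarith)
      (qq_lt_one hν hα hK hlam h0 h1 (by simpa using hg)))
    (fun θ θ₁ h0 h1 h2 hg => uker_mom hν hlam h0 (by linarith)
      (qq_lt_one hν hα hK hlam h0 h1 (by simpa using hg)))
    hΓ
  refine ⟨max C (2 * lam / δ₃ ^ Γ), ?_⟩
  intro δ hδ hδ1
  have hpowpos : 0 < δ ^ Γ := Real.rpow_pos_of_pos hδ _
  rcases le_or_gt δ δ₃ with hle | hgt
  · obtain ⟨L, hL, hbound⟩ := hmain δ hδ hle
    have h1 := hf3 (hc - δ) L hL
    calc f (hc - δ) ≤ C * δ ^ Γ := le_trans h1 hbound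
      _ ≤ max C (2 * lam / δ₃ ^ Γ) * δ ^ Γ := by gcongr; exact le_max_left _ _
  · have h1 := (hmono (show hc - δ ≤ hc by linarith)).2
    rw [hfc] at h1
    have h2 : f (hc - δ) ≤ 2 * lam := by nlinarith
    have hδ₃pow : 0 < δ₃ ^ Γ := Real.rpow_pos_of_pos hδ₃ _
    have h3 : δ₃ ^ Γ ≤ δ ^ Γ := Real.rpow_le_rpow hδ₃.le hgt.le hΓ.le
    calc f (hc - δ) ≤ 2 * lam := h2
      _ = 2 * lam / δ₃ ^ Γ * δ₃ ^ Γ := by field_simp
      _ ≤ 2 * lam / δ₃ ^ Γ * δ ^ Γ := by gcongr
      _ ≤ max C (2 * lam / δ₃ ^ Γ) * δ ^ Γ := by gcongr; exact le_max_right _ _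

end Pool.Agent.Results.MP_fd21e9_pr.InfiniteOrder
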